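import Pool.Agent.V11307.RI.SC

set_option autoImplicit false

/-!
# Sign and integrality of `∑_{k<n} (20k+3) M_k (-1024)^(n-1-k) / (2n (2n+1) C(2n,n))`
-/

namespace Pool.Agent.Results.MP_f65ae4_nt.Full

open Finset Nat

/-- `M_k = (4k)!/(k!)^4` -/
def M (k : ℕ) : ℚ := ((4 * k)! : ℚ) / (k ! : ℚ) ^ 4

/-- `S_n = ∑_{k=0}^{n-1} (20k+3) M_k (-1024)^{n-1-k}` -/
def S (n : ℕ) : ℚ := ∑ k ∈ range n, (20 * (k : ℚ) + 3) * M k * (-1024) ^ (n - 1 - k)

/-- `a_n` -/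
def a (n : ℕ) : ℚ := S n / (2 * (n : ℚ) * (2 * n + 1) * ((2 * n).choose n : ℚ))

open V11307.RI

theorem S_succ (n : ℕ) : S (n + 1) = -1024 * S n + (20 * (n : ℚ) + 3) * M n := by
  rw [S, sum_range_succ, S, mul_sum]
  congr 1
  · refine sum_congr rfl fun k hk => ?_
    rw [mem_range] at hk
    have : n + 1 - 1 - k = (n - 1 - k) + 1 := by omega
    rw [this, pow_succ]
    ring
  · simp

/-! ### the WZ identity -/

/-- terms of the closed form -/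
def g (j k : ℕ) : ℚ :=
  (-4) ^ j * ((4 * (j + k + 1) + 2 * j)! : ℚ) * ((2 * (j + k + 1))! : ℚ) * (j ! : ℚ) ^ 2 /
    (8 * ((2 * (j + k + 1) + j)! : ℚ) * ((2 * j + 1)! : ℚ) ^ 2 * (k ! : ℚ) * ((j + k + 1)! : ℚ) * ((j + k)! : ℚ) ^ 2)

def f (j k : ℕ) : ℚ :=
  (20 * ((j : ℚ) + k) - 2 * j + 3) * (-4) ^ j * ((4 * (j + k) + 2 * j)! : ℚ) * ((2 * (j + k))! : ℚ) * (j ! : ℚ) ^ 2 /
    (((2 * (j + k) + j)! : ℚ) * ((2 * j)! : ℚ) ^ 2 * (k ! : ℚ) * ((j + k)! : ℚ) ^ 3)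

theorem wz (j k : ℕ) : g j (k + 1) - (-1024) * g j k = f j (k + 1) - f (j + 1) k := by
  have e1 : ((4 * (j + (k + 1) + 1) + 2 * j)! : ℚ) =
      (6 * j + 4 * k + 8) * ((6 * j + 4 * k + 7) * ((6 * j + 4 * k + 6) * ((6 * j + 4 * k + 5) *
        ((4 * (j + k + 1) + 2 * j)! : ℚ)))) := by
    rw [show 4 * (j + (k + 1) + 1) + 2 * j = 4 * (j + k + 1) + 2 * j + 1 + 1 + 1 + 1 by ring, Nat.factorial_succ,
      Nat.factorial_succ, Nat.factorial_succ, Nat.factorial_succ]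
    push_cast; ring
  have e2 : ((4 * (j + (k + 1)) + 2 * j)! : ℚ) = ((4 * (j + k + 1) + 2 * j)! : ℚ) := by
    rw [show 4 * (j + (k + 1)) + 2 * j = 4 * (j + k + 1) + 2 * j by ring]
  have e3 : ((4 * (j + 1 + k) + 2 * (j + 1))! : ℚ) =
      (6 * j + 4 * k + 6) * ((6 * j + 4 * k + 5) * ((4 * (j + k + 1) + 2 * j)! : ℚ)) := by
    rw [show 4 * (j + 1 + k) + 2 * (j + 1) = 4 * (j + k + 1) + 2 * j + 1 + 1 by ring, Nat.factorial_succ,
      Nat.factorial_succ]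
    push_cast; ring
  have e4 : ((2 * (j + (k + 1) + 1))! : ℚ) = (2 * j + 2 * k + 4) * ((2 * j + 2 * k + 3) * ((2 * (j + k + 1))! : ℚ)) := by
    rw [show 2 * (j + (k + 1) + 1) = 2 * (j + k + 1) + 1 + 1 by ring, Nat.factorial_succ, Nat.factorial_succ]
    push_cast; ring
  have e4b : ((2 * (j + (k + 1)))! : ℚ) = ((2 * (j + k + 1))! : ℚ) := by
    rw [show 2 * (j + (k + 1)) = 2 * (j + k + 1) by ring]
  have e4c : ((2 * (j + 1 + k))! : ℚ) = ((2 * (j + k + 1))! : ℚ) := by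
    rw [show 2 * (j + 1 + k) = 2 * (j + k + 1) by ring]
  have e5 : ((k + 1)! : ℚ) = (k + 1) * (k ! : ℚ) := by
    rw [Nat.factorial_succ]; push_cast; ring
  have e5b : ((j + 1)! : ℚ) = (j + 1) * (j ! : ℚ) := by
    rw [Nat.factorial_succ]; push_cast; ring
  have e6 : ((j + (k + 1) + 1)! : ℚ) = (j + k + 2) * ((j + k + 1) * ((j + k)! : ℚ)) := by
    rw [show j + (k + 1) + 1 = j + k + 1 + 1 by ring, Nat.factorial_succ, Nat.factorial_succ]; push_cast; ring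
  have e6b : ((j + k + 1)! : ℚ) = (j + k + 1) * ((j + k)! : ℚ) := by
    rw [Nat.factorial_succ]; push_cast; ring
  have e6c : ((j + (k + 1))! : ℚ) = (j + k + 1) * ((j + k)! : ℚ) := by
    rw [show j + (k + 1) = j + k + 1 by ring, Nat.factorial_succ]; push_cast; ring
  have e7 : ((j + 1 + k)! : ℚ) = (j + k + 1) * ((j + k)! : ℚ) := by
    rw [show j + 1 + k = j + k + 1 by ring, Nat.factorial_succ]; push_cast; ring
  have e8 : ((2 * (j + (k + 1) + 1) + j)! : ℚ) =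
      (3 * j + 2 * k + 4) * ((3 * j + 2 * k + 3) * ((2 * (j + k + 1) + j)! : ℚ)) := by
    rw [show 2 * (j + (k + 1) + 1) + j = 2 * (j + k + 1) + j + 1 + 1 by ring, Nat.factorial_succ, Nat.factorial_succ]
    push_cast; ring
  have e8b : ((2 * (j + (k + 1)) + j)! : ℚ) = ((2 * (j + k + 1) + j)! : ℚ) := by
    rw [show 2 * (j + (k + 1)) + j = 2 * (j + k + 1) + j by ring]
  have e8c : ((2 * (j + 1 + k) + (j + 1))! : ℚ) = (3 * j + 2 * k + 3) * ((2 * (j + k + 1) + j)! : ℚ) := by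
    rw [show 2 * (j + 1 + k) + (j + 1) = 2 * (j + k + 1) + j + 1 by ring, Nat.factorial_succ]
    push_cast; ring
  have e9 : ((2 * j + 1)! : ℚ) = (2 * j + 1) * ((2 * j)! : ℚ) := by
    rw [Nat.factorial_succ]; push_cast; ring
  have e9b : ((2 * (j + 1))! : ℚ) = (2 * j + 2) * ((2 * j + 1) * ((2 * j)! : ℚ)) := by
    rw [show 2 * (j + 1) = 2 * j + 1 + 1 by ring, Nat.factorial_succ, Nat.factorial_succ]; push_cast; ring
  unfold g f
  rw [e1, e2, e3, e4, e4b, e4c, e5, e5b, e6, e6b, e6c, e7, e8, e8b, e8c, e9, e9b]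
  push_cast
  have n1 : (k ! : ℚ) ≠ 0 := by exact_mod_cast k.factorial_ne_zero
  have n2 : ((j + k)! : ℚ) ≠ 0 := by exact_mod_cast (j + k).factorial_ne_zero
  have n7 : ((2 * (j + k + 1) + j)! : ℚ) ≠ 0 := by exact_mod_cast (2 * (j + k + 1) + j).factorial_ne_zero
  have n10 : ((2 * j)! : ℚ) ≠ 0 := by exact_mod_cast (2 * j).factorial_ne_zero
  have n11 : (j ! : ℚ) ≠ 0 := by exact_mod_cast j.factorial_ne_zero
  have n3 : ((j : ℚ) + k + 1) ≠ 0 := by positivity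
  have n3' : ((j : ℚ) + k + 2) ≠ 0 := by positivity
  have n4 : ((k : ℚ) + 1) ≠ 0 := by positivity
  have n5 : (3 * (j : ℚ) + 2 * k + 4) ≠ 0 := by positivity
  have n6 : (3 * (j : ℚ) + 2 * k + 3) ≠ 0 := by positivity
  have n8 : (2 * (j : ℚ) + 1) ≠ 0 := by positivity
  have n9 : (2 * (j : ℚ) + 2) ≠ 0 := by positivity
  generalize ((4 * (j + k + 1) + 2 * j)! : ℚ) = A
  generalize ((2 * (j + k + 1))! : ℚ) = B
  generalize (k ! : ℚ) = C at *
  generalize ((j + k)! : ℚ) = D at *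
  generalize ((2 * (j + k + 1) + j)! : ℚ) = E at *
  generalize ((2 * j)! : ℚ) = F at *
  generalize (j ! : ℚ) = G at *
  rw [pow_succ]
  field_simp
  ring

theorem f_zero (n : ℕ) : f 0 n = (20 * (n : ℚ) + 3) * M n := by
  have n1 : (n ! : ℚ) ≠ 0 := by exact_mod_cast n.factorial_ne_zero
  have n2 : ((2 * n)! : ℚ) ≠ 0 := by exact_mod_cast (2 * n).factorial_ne_zero
  unfold f M
  simp only [Nat.mul_zero, Nat.zero_add, Nat.add_zero, Nat.factorial_zero]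
  push_cast
  field_simp
  ring

theorem g_f {n : ℕ} (hn : 1 ≤ n) : g n 0 = f n 0 := by
  obtain ⟨m, rfl⟩ : ∃ m, n = m + 1 := ⟨n - 1, by omega⟩
  have e1 : ((4 * (m + 1 + 0 + 1) + 2 * (m + 1))! : ℚ) =
      (6 * m + 10) * ((6 * m + 9) * ((6 * m + 8) * ((6 * m + 7) * ((4 * (m + 1 + 0) + 2 * (m + 1))! : ℚ)))) := by
    rw [show 4 * (m + 1 + 0 + 1) + 2 * (m + 1) = 4 * (m + 1 + 0) + 2 * (m + 1) + 1 + 1 + 1 + 1 by ring,
      Nat.factorial_succ, Nat.factorial_succ, Nat.factorial_succ, Nat.factorial_succ]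
    push_cast; ring
  have e2 : ((2 * (m + 1 + 0 + 1))! : ℚ) = (2 * m + 4) * ((2 * m + 3) * ((2 * (m + 1 + 0))! : ℚ)) := by
    rw [show 2 * (m + 1 + 0 + 1) = 2 * (m + 1 + 0) + 1 + 1 by ring, Nat.factorial_succ, Nat.factorial_succ]
    push_cast; ring
  have e3 : ((2 * (m + 1 + 0 + 1) + (m + 1))! : ℚ) = (3 * m + 5) * ((3 * m + 4) * ((2 * (m + 1 + 0) + (m + 1))! : ℚ)) := by
    rw [show 2 * (m + 1 + 0 + 1) + (m + 1) = 2 * (m + 1 + 0) + (m + 1) + 1 + 1 by ring, Nat.factorial_succ,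
      Nat.factorial_succ]
    push_cast; ring
  have e4 : ((2 * (m + 1) + 1)! : ℚ) = (2 * m + 3) * ((2 * (m + 1))! : ℚ) := by
    rw [Nat.factorial_succ]; push_cast; ring
  have e5 : ((m + 1 + 0 + 1)! : ℚ) = (m + 2) * ((m + 1 + 0)! : ℚ) := by
    rw [Nat.factorial_succ]; push_cast; ring
  unfold g f
  rw [e1, e2, e3, e4, e5]
  have n2 : ((m + 1 + 0)! : ℚ) ≠ 0 := by exact_mod_cast (m + 1 + 0).factorial_ne_zero
  have n7 : ((2 * (m + 1 + 0) + (m + 1))! : ℚ) ≠ 0 := by exact_mod_cast (2 * (m + 1 + 0) + (m + 1)).factorial_ne_zero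
  have n10 : ((2 * (m + 1))! : ℚ) ≠ 0 := by exact_mod_cast (2 * (m + 1)).factorial_ne_zero
  have n3 : ((m : ℚ) + 2) ≠ 0 := by positivity
  have n4 : (3 * (m : ℚ) + 5) ≠ 0 := by positivity
  have n5 : (3 * (m : ℚ) + 4) ≠ 0 := by positivity
  have n6 : (2 * (m : ℚ) + 3) ≠ 0 := by positivity
  push_cast
  generalize ((4 * (m + 1 + 0) + 2 * (m + 1))! : ℚ) = A
  generalize ((2 * (m + 1 + 0))! : ℚ) = B
  generalize ((m + 1 + 0)! : ℚ) = D at *
  generalize ((2 * (m + 1 + 0) + (m + 1))! : ℚ) = E at *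
  generalize ((2 * (m + 1))! : ℚ) = F at *
  field_simp
  ring

theorem S_eq (n : ℕ) : S (n + 1) = ∑ j ∈ range (n + 1), g j (n - j) := by
  refine V11307.RI.closed (m := -1024) (f := f) wz (fun n hn => g_f hn) S
    (fun n => (20 * (n : ℚ) + 3) * M n) ?_ (fun n => by rw [S_succ])
    (fun n _ => f_zero n) n
  norm_num [S, g, M, Nat.factorial]

/-- the closed form as a sum of integers -/
def b (n : ℕ) : ℤ := ∑ j ∈ range (n + 1), (-4) ^ j * ((I (2 * n + 1) (j + 1) * I (n - j) (j + 1) : ℕ) : ℤ)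

theorem g_eq (j k : ℕ) : 2 * g j k = (2 * (j + k : ℕ) + 1) * ((2 * (j + k)).choose (j + k) : ℚ) *
    ((-4) ^ j * ((I (2 * (j + k) + 1) (j + 1) : ℚ) * (I k (j + 1) : ℚ))) := by
  rw [I_eq, I_eq, Nat.cast_choose ℚ (show j + k ≤ 2 * (j + k) by omega),
    show 2 * (j + k) - (j + k) = j + k by omega]
  have e1 : ((2 * (j + 1) + 2 * (2 * (j + k) + 1))! : ℚ) = ((4 * (j + k + 1) + 2 * j)! : ℚ) := by
    rw [show 2 * (j + 1) + 2 * (2 * (j + k) + 1) = 4 * (j + k + 1) + 2 * j by ring]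
  have e2 : ((j + 1 + (2 * (j + k) + 1))! : ℚ) = ((2 * (j + k + 1) + j)! : ℚ) := by
    rw [show j + 1 + (2 * (j + k) + 1) = 2 * (j + k + 1) + j by ring]
  have e3 : ((2 * (j + 1) + 2 * k)! : ℚ) = ((2 * (j + k + 1))! : ℚ) := by
    rw [show 2 * (j + 1) + 2 * k = 2 * (j + k + 1) by ring]
  have e4 : ((j + 1 + k)! : ℚ) = (j + k + 1) * ((j + k)! : ℚ) := by
    rw [show j + 1 + k = j + k + 1 by ring, Nat.factorial_succ]; push_cast; ring
  have e5 : ((j + k + 1)! : ℚ) = (j + k + 1) * ((j + k)! : ℚ) := by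
    rw [Nat.factorial_succ]; push_cast; ring
  have e6 : ((2 * (j + 1))! : ℚ) = (2 * j + 2) * ((2 * j + 1)! : ℚ) := by
    rw [show 2 * (j + 1) = 2 * j + 1 + 1 by ring, Nat.factorial_succ]; push_cast; ring
  have e7 : ((j + 1)! : ℚ) = (j + 1) * (j ! : ℚ) := by
    rw [Nat.factorial_succ]; push_cast; ring
  have e8 : ((2 * (j + k) + 1)! : ℚ) = (2 * j + 2 * k + 1) * ((2 * (j + k))! : ℚ) := by
    rw [Nat.factorial_succ]; push_cast; ring
  unfold g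
  rw [e1, e2, e3, e4, e5, e6, e7, e8]
  have n1 : (k ! : ℚ) ≠ 0 := by exact_mod_cast k.factorial_ne_zero
  have n2 : ((j + k)! : ℚ) ≠ 0 := by exact_mod_cast (j + k).factorial_ne_zero
  have n7 : ((2 * (j + k + 1) + j)! : ℚ) ≠ 0 := by exact_mod_cast (2 * (j + k + 1) + j).factorial_ne_zero
  have n10 : ((2 * j + 1)! : ℚ) ≠ 0 := by exact_mod_cast (2 * j + 1).factorial_ne_zero
  have n11 : (j ! : ℚ) ≠ 0 := by exact_mod_cast j.factorial_ne_zero
  have n12 : ((2 * (j + k))! : ℚ) ≠ 0 := by exact_mod_cast (2 * (j + k)).factorial_ne_zero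
  have n3 : ((j : ℚ) + k + 1) ≠ 0 := by positivity
  have n4 : ((j : ℚ) + 1) ≠ 0 := by positivity
  have n5 : (2 * (j : ℚ) + 2 * k + 1) ≠ 0 := by positivity
  have n6 : (2 * (j : ℚ) + 2) ≠ 0 := by positivity
  push_cast
  field_simp
  norm_num

theorem S_closed (n : ℕ) : 2 * S (n + 1) = ((2 * (n : ℚ) + 1) * ((2 * n).choose n : ℚ)) * (b n : ℚ) := by
  rw [S_eq, b, mul_sum]
  push_cast
  rw [mul_sum]
  refine sum_congr rfl fun j hj => ?_
  rw [mem_range] at hj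
  obtain ⟨k, rfl⟩ : ∃ k, n = j + k := ⟨n - j, by omega⟩
  rw [show j + k - j = k by omega, g_eq]

theorem eight_dvd_b {n : ℕ} (hn : 1 ≤ n) : (8 : ℤ) ∣ b n := by
  refine dvd_sum fun j hj => ?_
  rcases Nat.lt_or_ge j 2 with h | h
  · interval_cases j
    · rw [pow_zero, one_mul, Nat.sub_zero, I_one, I_one]
      obtain ⟨u, hu⟩ := four_dvd hn
      obtain ⟨v, hv⟩ := two_dvd hn
      rw [hu, hv]
      exact ⟨((2 * (2 * n + 1) + 1) * u * ((2 * n + 1) * v) : ℕ), by push_cast; ring⟩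
    · obtain ⟨u, hu⟩ := even_I (2 * n) (1 + 1)
      rw [hu]
      exact ⟨-((u * I (n - 1) (1 + 1) : ℕ) : ℤ), by push_cast; ring⟩
  · obtain ⟨i, rfl⟩ : ∃ i, j = i + 2 := ⟨j - 2, by omega⟩
    exact Dvd.dvd.mul_right ⟨2 * (-4) ^ i, by ring⟩ _

theorem dvd_b (n : ℕ) : (2 * (n : ℤ) + 3) ∣ b n := by
  have h1 := S_succ (n + 1)
  have h2 := S_closed n
  have h3 := S_closed (n + 1)
  have hM : M (n + 1) = (((4 * (n + 1)).choose (2 * (n + 1)) * (2 * (n + 1)).choose (n + 1) ^ 2 : ℕ) : ℚ) := M_mul (n + 1)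
  obtain ⟨w, hw⟩ := V11307.RI.catalan (n + 1)
  have hc : ((n : ℚ) + 1) * ((2 * (n + 1)).choose (n + 1) : ℚ) = 2 * (2 * n + 1) * ((2 * n).choose n : ℚ) := by
    exact_mod_cast central n
  have hpos : ((2 * (n + 1)).choose (n + 1) : ℚ) ≠ 0 := by exact_mod_cast (choose_pos' (n + 1)).ne'
  rw [hw] at hM
  push_cast at hM h1 h3
  have h4 : (2 * (n : ℚ) + 3) * (b (n + 1) : ℚ) = -512 * (n + 1) * (b n : ℚ) +
      (2 * n + 3) * (2 * (20 * n + 23) * (w : ℚ) * ((2 * (n + 1)).choose (n + 1) : ℚ)) := by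
    apply mul_left_cancel₀ hpos
    rw [hM] at h1
    linear_combination (-1) * h3 + 2 * h1 - 1024 * h2 + 512 * (b n : ℚ) * hc
  have h5 : (2 * (n : ℤ) + 3) * b (n + 1) = -512 * (n + 1) * b n +
      (2 * n + 3) * (2 * (20 * n + 23) * w * ((2 * (n + 1)).choose (n + 1) : ℤ)) := by
    exact_mod_cast h4
  have h6 : (2 * (n : ℤ) + 3) ∣ (512 * (n + 1)) * b n :=
    ⟨(2 * (20 * n + 23) * w * ((2 * (n + 1)).choose (n + 1) : ℤ)) - b (n + 1), by linear_combination h5⟩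
  have h7 : IsCoprime (2 * (n : ℤ) + 3) (512 * (n + 1)) := by
    have e1 : IsCoprime (2 * (n : ℤ) + 3) (n + 1) := ⟨1, -2, by ring⟩
    have e2 : IsCoprime (2 * (n : ℤ) + 3) 2 := ⟨1, -(n + 1), by ring⟩
    have e3 : IsCoprime (2 * (n : ℤ) + 3) (2 ^ 9) := e2.pow_right
    rw [show (512 : ℤ) = 2 ^ 9 by norm_num]
    exact e3.mul_right e1
  exact h7.dvd_of_dvd_mul_left h6

/-! ### sign -/

theorem M_pos (k : ℕ) : 0 < M k := by
  unfold M
  have : 0 < ((4 * k)! : ℚ) := by exact_mod_cast Nat.factorial_pos _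
  have : 0 < (k ! : ℚ) := by exact_mod_cast Nat.factorial_pos _
  positivity

/-- the weights `(20k+3) M_k` -/
def W (k : ℕ) : ℚ := (20 * (k : ℚ) + 3) * M k

theorem W_le (k : ℕ) : W (k + 2) ≤ 480 * W (k + 1) := by
  have h := M_succ (k + 1)
  change M (k + 1 + 1) * _ = _ * M (k + 1) at h
  have hp := M_pos (k + 1)
  have h3 : (0 : ℚ) < ((k : ℚ) + 2) ^ 3 := by positivity
  unfold W
  push_cast at h ⊢
  have h4 : M (k + 2) * ((k : ℚ) + 2) ^ 3 =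
      8 * (2 * (k + 1) + 1) * (4 * (k + 1) + 1) * (4 * (k + 1) + 3) * M (k + 1) := by
    rw [← h, show k + 1 + 1 = k + 2 by ring]; ring
  rw [← mul_le_mul_iff_of_pos_right h3]
  have h5 : (20 * ((k : ℚ) + 2) + 3) * M (k + 2) * ((k : ℚ) + 2) ^ 3 =
      ((20 * ((k : ℚ) + 2) + 3) * (8 * (2 * (k + 1) + 1) * (4 * (k + 1) + 1) * (4 * (k + 1) + 3))) * M (k + 1) := by
    rw [mul_assoc, h4]; ring
  rw [h5]
  have h6 : (20 * ((k : ℚ) + 2) + 3) * (8 * (2 * (k + 1) + 1) * (4 * (k + 1) + 1) * (4 * (k + 1) + 3)) ≤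
      480 * (20 * (k + 1) + 3) * ((k : ℚ) + 2) ^ 3 := by
    have hk : (0 : ℚ) ≤ k := by positivity
    nlinarith [mul_nonneg hk hk, mul_nonneg hk (mul_nonneg hk hk), mul_nonneg (mul_nonneg hk hk) (mul_nonneg hk hk)]
  calc _ ≤ (480 * (20 * (k + 1) + 3) * ((k : ℚ) + 2) ^ 3) * M (k + 1) :=
        mul_le_mul_of_nonneg_right h6 hp.le
    _ = _ := by ring

theorem sign (n : ℕ) : 0 < (-1) ^ n * S (n + 1) ∧ W (n + 1) ≤ 512 * ((-1) ^ n * S (n + 1)) := by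
  induction n with
  | zero =>
    have h1 : S 1 = 3 := by norm_num [S, M, Nat.factorial]
    have h2 : W 1 = 552 := by norm_num [W, M, Nat.factorial]
    rw [h1, h2]
    norm_num
  | succ n ih =>
    obtain ⟨h1, h2⟩ := ih
    have h3 := S_succ (n + 1)
    have h4 : (20 * ((n + 1 : ℕ) : ℚ) + 3) * M (n + 1) = W (n + 1) := rfl
    rw [h4] at h3
    have hW : 0 < W (n + 1) := by
      have := M_pos (n + 1)
      unfold W
      positivity
    have h5 : (-1) ^ (n + 1) * S (n + 1 + 1) = 1024 * ((-1) ^ n * S (n + 1)) + (-1) ^ (n + 1) * W (n + 1) := by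
      rw [h3, pow_succ]; ring
    have h6 : -W (n + 1) ≤ (-1) ^ (n + 1) * W (n + 1) := by
      rcases neg_one_pow_eq_or ℚ (n + 1) with h | h <;> rw [h] <;> linarith
    have h7 := W_le n
    rw [h5]
    constructor
    · linarith
    · have : W (n + 1 + 1) = W (n + 2) := rfl
      rw [this]
      linarith

/-- **Full answer**: for every `n ≥ 2` the number `(-1)^{n-1} a_n` is a positive integer. -/
theorem result : ∀ n : ℕ, 2 ≤ n → ∃ z : ℤ, 0 < z ∧ (-1) ^ (n - 1) * a n = z := by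
  intro n hn
  obtain ⟨m, rfl⟩ : ∃ m, n = m + 1 := ⟨n - 1, by omega⟩
  rw [Nat.add_sub_cancel]
  obtain ⟨u, hu⟩ := eight_dvd_b (n := m) (by omega)
  have h1 := dvd_b m
  rw [hu] at h1
  have e2 : IsCoprime (2 * (m : ℤ) + 3) 8 := by
    have : IsCoprime (2 * (m : ℤ) + 3) (2 ^ 3) := IsCoprime.pow_right ⟨1, -(m + 1), by ring⟩
    rwa [show (8 : ℤ) = 2 ^ 3 by norm_num]
  obtain ⟨w, hw⟩ := e2.dvd_of_dvd_mul_left h1
  have hc : ((m : ℚ) + 1) * ((2 * (m + 1)).choose (m + 1) : ℚ) = 2 * (2 * m + 1) * ((2 * m).choose m : ℚ) := by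
    exact_mod_cast central m
  have hpos : (0 : ℚ) < ((2 * (m + 1)).choose (m + 1) : ℚ) := by exact_mod_cast choose_pos' (m + 1)
  have hS := S_closed m
  have hden : (0 : ℚ) < 2 * ((m + 1 : ℕ) : ℚ) * (2 * ((m + 1 : ℕ) : ℚ) + 1) * ((2 * (m + 1)).choose (m + 1) : ℚ) := by
    positivity
  have ha : a (m + 1) = w := by
    rw [a, div_eq_iff hden.ne']
    rw [hu, hw] at hS
    push_cast at hS ⊢
    linear_combination (1 / 2 : ℚ) * hS - 2 * (w : ℚ) * (2 * m + 3) * hc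
  refine ⟨(-1) ^ m * w, ?_, ?_⟩
  · have h2 := (sign m).1
    have h3 : (-1 : ℚ) ^ m * S (m + 1) = ((-1) ^ m * w) *
        (2 * ((m + 1 : ℕ) : ℚ) * (2 * ((m + 1 : ℕ) : ℚ) + 1) * ((2 * (m + 1)).choose (m + 1) : ℚ)) := by
      rw [a, div_eq_iff hden.ne'] at ha
      rw [ha]; ring
    rw [h3] at h2
    have h4 : (0 : ℚ) < (-1) ^ m * w := (mul_pos_iff_of_pos_right hden).1 h2
    exact_mod_cast h4
  · rw [ha]; push_cast; ring

end Pool.Agent.Results.MP_f65ae4_nt.Full
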